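import Mathlib

/-!
# TLD Count A: finite windows, product measures under injections, digits
-/

set_option autoImplicit false

open MeasureTheory Measure Set
open scoped ENNReal unitInterval symmDiff

namespace TLD

section Approx

variable {ι Ω : Type*} [MeasurableSpace Ω]

/-- A measurable set of functions is approximated by a measurable set which depends only on
finitely many coordinates. -/
theorem approxSet (ν : Measure (ι → Ω)) [IsFiniteMeasure ν] {s : Set (ι → Ω)}
    (hs : MeasurableSet s) {ε : ℝ≥0∞} (hε : 0 < ε) :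
    ∃ (F : Finset ι) (t : Set (ι → Ω)), MeasurableSet t ∧
      (∀ u v : ι → Ω, (∀ i ∈ F, u i = v i) → (u ∈ t ↔ v ∈ t)) ∧ ν (t ∆ s) < ε := by
  have hC : IsSetRing (measurableCylinders (fun _ : ι => Ω)) :=
    isSetAlgebra_measurableCylinders.isSetRing
  obtain ⟨t, ht, h⟩ := exists_measure_symmDiff_lt_of_generateFrom_isSetRing (μ := ν) hC
    ⟨{univ}, countable_singleton _, by
      simpa using univ_mem_measurableCylinders (fun _ : ι => Ω), by simp⟩
    generateFrom_measurableCylinders.symm hs hε
  obtain ⟨F, S, hS, rfl⟩ := (mem_measurableCylinders t).1 ht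
  refine ⟨F, _, hS.cylinder F, fun u v huv => ?_, h⟩
  have h1 : F.restrict u = F.restrict v := by
    funext i
    exact huv i i.2
  rw [mem_cylinder, mem_cylinder, h1]

/-- A measurable function with values in `Fin m` is approximated by a measurable function which
depends only on finitely many coordinates. -/
theorem approxFun (ν : Measure (ι → Ω)) [IsFiniteMeasure ν] {m : ℕ} {f : (ι → Ω) → Fin m}
    (hf : Measurable f) {ε : ℝ≥0∞} (hε : 0 < ε) :
    ∃ (F : Finset ι) (f' : (ι → Ω) → Fin m), Measurable f' ∧
      (∀ u v : ι → Ω, (∀ i ∈ F, u i = v i) → f' u = f' v) ∧ ν {u | f' u ≠ f u} ≤ ε := by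
  classical
  rcases isEmpty_or_nonempty (ι → Ω) with he | ⟨⟨u0⟩⟩
  · exact ⟨∅, f, hf, fun u => (he.false u).elim, by simp⟩
  have hm : (m : ℝ≥0∞) ≠ 0 := by
    have := (f u0).pos
    exact_mod_cast this.ne'
  have hε' : 0 < ε / m := ENNReal.div_pos hε.ne' (ENNReal.natCast_ne_top m)
  have h1 : ∀ j : Fin m, ∃ (F : Finset ι) (t : Set (ι → Ω)), MeasurableSet t ∧
      (∀ u v : ι → Ω, (∀ i ∈ F, u i = v i) → (u ∈ t ↔ v ∈ t)) ∧ ν (t ∆ (f ⁻¹' {j})) < ε / m :=
    fun j => approxSet ν (hf (measurableSet_singleton j)) hε'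
  choose F t ht hF hν using h1
  let c : (ι → Ω) → Fin m → Bool := fun u j => decide (u ∈ t j)
  have hc : Measurable c := by
    refine measurable_pi_lambda _ fun j => ?_
    refine measurable_to_bool ?_
    have : (fun u => c u j) ⁻¹' {true} = t j := by
      ext u
      simp [c]
    rw [this]
    exact ht j
  let φ : (Fin m → Bool) → Fin m := fun a =>
    if h : ∃ j, ∀ i, a i = decide (i = j) then h.choose else f u0
  refine ⟨Finset.univ.biUnion F, fun u => φ (c u), (measurable_of_finite φ).comp hc,
    fun u v huv => ?_, ?_⟩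
  · have : c u = c v := by
      funext j
      simp only [c]
      exact decide_eq_decide.2 (hF j u v fun i hi =>
        huv i (Finset.mem_biUnion.2 ⟨j, Finset.mem_univ _, hi⟩))
    simp only [this]
  · have h2 : {u | φ (c u) ≠ f u} ⊆ ⋃ j : Fin m, (t j ∆ (f ⁻¹' {j})) := by
      intro u hu
      by_contra hcon
      simp only [mem_iUnion, not_exists] at hcon
      apply hu
      have h3 : ∀ i, c u i = decide (i = f u) := by
        intro i
        have h4 := hcon i
        simp only [c]
        refine decide_eq_decide.2 ?_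
        rw [mem_symmDiff] at h4
        push Not at h4
        constructor
        · intro h5
          exact (h4.1 h5).symm
        · intro h5
          exact h4.2 (by simp [h5])
      have h5 : ∃ j, ∀ i, c u i = decide (i = j) := ⟨f u, h3⟩
      have h6 : φ (c u) = h5.choose := dif_pos h5
      rw [h6]
      have h7 := h5.choose_spec (f u)
      rw [h3 (f u)] at h7
      have h8 : f u = h5.choose := by simpa using h7
      exact h8.symm
    calc ν {u | φ (c u) ≠ f u} ≤ ν (⋃ j : Fin m, (t j ∆ (f ⁻¹' {j}))) := measure_mono h2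
      _ ≤ ∑ j : Fin m, ν (t j ∆ (f ⁻¹' {j})) := measure_iUnion_fintype_le _ _
      _ ≤ ∑ _j : Fin m, ε / m := Finset.sum_le_sum fun j _ => (hν j).le
      _ = ε := by
        rw [Finset.sum_const, Finset.card_univ, Fintype.card_fin, nsmul_eq_mul]
        exact ENNReal.mul_div_cancel hm (ENNReal.natCast_ne_top m)

end Approx

section MapInj

variable {W V Z : Type*} [MeasurableSpace Z]

/-- Product measures under restriction along an injection of the index sets. -/
theorem mapInj (ν : Measure Z) [IsProbabilityMeasure ν] {e : W → V}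
    (he : Function.Injective e) :
    (infinitePi (fun _ : V => ν)).map (fun y w => y (e w)) = infinitePi (fun _ : W => ν) := by
  classical
  refine eq_infinitePi (fun _ : W => ν) fun s t ht => ?_
  have hm : Measurable (fun (y : V → Z) (w : W) => y (e w)) :=
    measurable_pi_lambda _ fun w => measurable_pi_apply _
  let t' : V → Set Z := Function.extend e t fun _ => univ
  have h1 : ∀ w, t' (e w) = t w := fun w => he.extend_apply _ _ _
  have h2 : ∀ v, MeasurableSet (t' v) := by
    intro v
    by_cases hv : ∃ w, e w = v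
    · obtain ⟨w, rfl⟩ := hv
      rw [h1]
      exact ht w
    · simp only [t', Function.extend_apply' _ _ _ hv, MeasurableSet.univ]
  rw [map_apply hm (MeasurableSet.pi s.countable_toSet fun i _ => ht i)]
  have h3 : (fun (y : V → Z) (w : W) => y (e w)) ⁻¹' Set.pi s t =
      Set.pi (s.map ⟨e, he⟩ : Finset V) t' := by
    ext y
    simp only [mem_preimage, mem_pi, Finset.mem_coe, Finset.mem_map, Function.Embedding.coeFn_mk,
      forall_exists_index, and_imp, forall_apply_eq_imp_iff₂, h1]
  rw [h3, infinitePi_pi _ (fun i _ => h2 i), Finset.prod_map]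
  simp only [Function.Embedding.coeFn_mk, h1]

end MapInj

section Digit

/-- the digit of a number in `[0, 1]` to base `L` -/
noncomputable def digit (L : ℕ) [NeZero L] (z : I) : Fin L :=
  ⟨min ⌊(L : ℝ) * z⌋₊ (L - 1), by
    have := NeZero.pos L
    omega⟩

theorem measurable_digit (L : ℕ) [NeZero L] : Measurable (digit L) := by
  refine measurable_to_countable' fun j => ?_
  have h1 : Measurable fun z : I => min ⌊(L : ℝ) * z⌋₊ (L - 1) :=
    (Nat.measurable_floor.comp (measurable_subtype_coe.const_mul _)).min measurable_const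
  have h2 : digit L ⁻¹' {j} = (fun z : I => min ⌊(L : ℝ) * z⌋₊ (L - 1)) ⁻¹' {j.1} := by
    ext z
    simp [digit, Fin.ext_iff]
  rw [h2]
  exact h1 (measurableSet_singleton _)

theorem volume_digit_le (L : ℕ) [NeZero L] (j : Fin L) :
    volume {z : I | digit L z = j} ≤ (L : ℝ≥0∞)⁻¹ := by
  have hL : (0 : ℝ) < L := by exact_mod_cast NeZero.pos L
  have h1 : {z : I | digit L z = j} ⊆
      (fun z : I => (z : ℝ)) ⁻¹' Icc ((j : ℝ) / L) (((j : ℝ) + 1) / L) := by
    intro z hz
    have hz' : min ⌊(L : ℝ) * z⌋₊ (L - 1) = j.1 := by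
      have := congrArg Fin.val hz
      simpa [digit] using this
    have hnn : (0 : ℝ) ≤ (L : ℝ) * z := mul_nonneg hL.le z.2.1
    simp only [mem_preimage, mem_Icc]
    constructor
    · rw [div_le_iff₀ hL]
      have h2 : j.1 ≤ ⌊(L : ℝ) * z⌋₊ := by omega
      calc ((j.1 : ℕ) : ℝ) ≤ (⌊(L : ℝ) * z⌋₊ : ℝ) := by exact_mod_cast h2
        _ ≤ (L : ℝ) * z := Nat.floor_le hnn
        _ = z * L := mul_comm _ _
    · rw [le_div_iff₀ hL]
      by_cases h3 : ⌊(L : ℝ) * z⌋₊ ≤ L - 1
      · have h4 : ⌊(L : ℝ) * z⌋₊ = j.1 := by omega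
        have h5 := Nat.lt_floor_add_one ((L : ℝ) * z)
        rw [h4] at h5
        rw [mul_comm]
        exact h5.le
      · have h4 : j.1 = L - 1 := by omega
        have h5 : ((j.1 : ℕ) : ℝ) + 1 = L := by
          have := NeZero.pos L
          have h6 : j.1 + 1 = L := by omega
          exact_mod_cast h6
        rw [h5]
        have := z.2.2
        nlinarith
  calc volume {z : I | digit L z = j}
      ≤ volume ((fun z : I => (z : ℝ)) ⁻¹' Icc ((j : ℝ) / L) (((j : ℝ) + 1) / L)) :=
        measure_mono h1
    _ = (volume.restrict (Icc (0 : ℝ) 1)) (Icc ((j : ℝ) / L) (((j : ℝ) + 1) / L)) :=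
        unitInterval.measurePreserving_coe.measure_preimage measurableSet_Icc.nullMeasurableSet
    _ ≤ volume (Icc ((j : ℝ) / L) (((j : ℝ) + 1) / L)) := restrict_apply_le _ _
    _ = ENNReal.ofReal (((j : ℝ) + 1) / L - (j : ℝ) / L) := Real.volume_Icc
    _ = (L : ℝ≥0∞)⁻¹ := by
        have : ((j : ℝ) + 1) / L - (j : ℝ) / L = (L : ℝ)⁻¹ := by
          field_simp
          ring
        rw [this, ENNReal.ofReal_inv_of_pos hL, ENNReal.ofReal_natCast]

end Digit

end TLD
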