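import Mathlib
import Pool.Agent.TLD.CountA

/-!
# TLD Count B: the counting argument

`G` is a countable residually finite group, `X = [0,1]^G`. If `b : X → Fin M` is measurable and
`x 1 = Ψ ((b (g⁻¹ x))_g, k x)` for almost all `x`, where `k : X → G` is measurable and
`Ψ (·, g)` is measurable for each `g`, then we have a contradiction.
-/

set_option autoImplicit false

open MeasureTheory Measure Set
open scoped ENNReal unitInterval symmDiff

namespace TLD

/-- the law of a finite window under a map of the index sets which is injective on it -/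
theorem windowLaw {G V : Type*} (Wn : Finset G) (e : G → V) (he : Set.InjOn e Wn)
    {E : Set (G → I)} (hE : MeasurableSet E)
    (hW : ∀ x x' : G → I, (∀ w ∈ Wn, x w = x' w) → (x ∈ E ↔ x' ∈ E)) :
    infinitePi (fun _ : V => (volume : Measure I)) {y | (fun h => y (e h)) ∈ E} =
      infinitePi (fun _ : G => (volume : Measure I)) E := by
  classical
  let ext : (Wn → I) → (G → I) := fun w h => if hh : h ∈ Wn then w ⟨h, hh⟩ else 0
  have hext : Measurable ext := by
    refine measurable_pi_lambda _ fun h => ?_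
    by_cases hh : h ∈ Wn
    · simp only [ext, hh, dif_pos]
      exact measurable_pi_apply _
    · simp only [ext, hh, dif_neg, not_false_eq_true]
      exact measurable_const
  have h1 : Function.Injective (fun w : Wn => e w) := fun a c hac =>
    Subtype.ext (he a.2 c.2 hac)
  have h2 := mapInj (volume : Measure I) h1
  have h3 := mapInj (volume : Measure I) (Subtype.val_injective : Function.Injective
    (fun w : Wn => (w : G)))
  have m1 : Measurable (fun (y : V → I) (w : Wn) => y (e w)) :=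
    measurable_pi_lambda _ fun w => measurable_pi_apply _
  have m2 : Measurable (fun (y : G → I) (w : Wn) => y w) :=
    measurable_pi_lambda _ fun w => measurable_pi_apply _
  have h4 : {y : V → I | (fun h => y (e h)) ∈ E} =
      (fun (y : V → I) (w : Wn) => y (e w)) ⁻¹' (ext ⁻¹' E) := by
    ext y
    simp only [mem_ofPred_eq, mem_preimage]
    refine hW _ _ fun w hw => ?_
    simp only [ext, hw, dif_pos]
  have h5 : E = (fun (y : G → I) (w : Wn) => y w) ⁻¹' (ext ⁻¹' E) := by
    ext y
    simp only [mem_preimage]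
    refine hW _ _ fun w hw => ?_
    simp only [ext, hw, dif_pos]
  rw [h4, ← map_apply m1 (hext hE), h2]
  conv_rhs => rw [h5]
  rw [← map_apply m2 (hext hE), h3]

section Main

variable {G : Type*} [Group G]

/-- the coordinates of the translate `g⁻¹ x` -/
def tr (g : G) (x : G → I) : G → I := fun h => x (g * h)

theorem measurable_tr (g : G) : Measurable (tr g) :=
  measurable_pi_lambda _ fun _ => measurable_pi_apply _

theorem map_tr (g : G) : (infinitePi (fun _ : G => (volume : Measure I))).map (tr g) =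
    infinitePi (fun _ : G => (volume : Measure I)) :=
  mapInj (volume : Measure I) (mul_right_injective g)

theorem exists_normal (hRF : ∀ g : G, g ≠ 1 → ∃ N : Subgroup G, N.Normal ∧ N.FiniteIndex ∧ g ∉ N)
    (K : Finset G) : ∃ N : Subgroup G, N.Normal ∧ N.FiniteIndex ∧ ∀ g ∈ K, g ∈ N → g = 1 := by
  classical
  induction K using Finset.induction_on with
  | empty => exact ⟨⊤, inferInstance, inferInstance, by simp⟩
  | insert a s ha ih =>
    obtain ⟨N, hN, hN2, hN3⟩ := ih
    by_cases h : a = 1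
    · refine ⟨N, hN, hN2, fun g hg hgN => ?_⟩
      rcases Finset.mem_insert.1 hg with h1 | h1
      · rw [h1, h]
      · exact hN3 g h1 hgN
    · obtain ⟨N', hN', hN2', hN3'⟩ := hRF a h
      refine ⟨N ⊓ N', inferInstance, inferInstance, fun g hg hgN => ?_⟩
      rcases Finset.mem_insert.1 hg with h1 | h1
      · rw [h1] at hgN
        exact (hN3' hgN.2).elim
      · exact hN3 g h1 hgN.1

/-- The finite model: the good event has probability less than `7/8`. -/
theorem model_count {M L R K : ℕ} [NeZero L] (hM : 0 < M) (hL : L = R ^ 2) (hR : R = 4 * M * K)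
    (K₁ : Finset G) (hK : K₁.card = K) (hK0 : 0 < K)
    (f' : G → (G → Fin M) → Fin L) (b' : (G → I) → Fin M)
    {E : Set (G → I)} (hE : E = {x | ∃ κ ∈ K₁, digit L (x 1) = f' κ fun g => b' (tr g x)})
    (hEm : MeasurableSet E) (Wn : Finset G)
    (hW : ∀ x x' : G → I, (∀ w ∈ Wn, x w = x' w) → (x ∈ E ↔ x' ∈ E))
    (hRF : ∀ g : G, g ≠ 1 → ∃ N : Subgroup G, N.Normal ∧ N.FiniteIndex ∧ g ∉ N)
    (hEc : infinitePi (fun _ : G => (volume : Measure I)) Eᶜ ≤ 8⁻¹) : False := by
  classical
  -- the finite quotient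
  obtain ⟨N, hN, hN2, hN3⟩ := exists_normal hRF ((Wn ×ˢ Wn).image fun p => p.1⁻¹ * p.2)
  have hinj : ∀ v : G ⧸ N, Set.InjOn (fun h : G => v * (h : G ⧸ N)) Wn := by
    intro v a ha c hc hac
    have h1 : (a : G ⧸ N) = (c : G ⧸ N) := mul_left_cancel hac
    have h2 : a⁻¹ * c ∈ N := QuotientGroup.eq.1 h1
    have h3 := hN3 (a⁻¹ * c) (Finset.mem_image.2 ⟨(a, c), Finset.mem_product.2 ⟨ha, hc⟩, rfl⟩) h2
    exact (inv_mul_eq_one.1 h3)
  have : Finite (G ⧸ N) := inferInstance
  have : Fintype (G ⧸ N) := Fintype.ofFinite _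
  set V := G ⧸ N with hVdef
  set P : Measure (V → I) := infinitePi (fun _ : V => (volume : Measure I)) with hP
  let X : V → (V → I) → (G → I) := fun v y h => y (v * (h : V))
  have hXm : ∀ v, Measurable (X v) := fun v =>
    measurable_pi_lambda _ fun h => measurable_pi_apply _
  have hXE : ∀ v, P {y | X v y ∈ Eᶜ} ≤ 8⁻¹ := by
    intro v
    rw [hP]
    refine le_trans (le_of_eq ?_) hEc
    refine windowLaw Wn (fun h : G => v * (h : V)) (hinj v) hEm.compl ?_
    intro x x' hxx
    simp only [mem_compl_iff]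
    exact not_congr (hW x x' hxx)
  set n := Fintype.card V with hn
  have hn0 : 0 < n := Fintype.card_pos
  let Bad : (V → I) → Finset V := fun y => Finset.univ.filter fun v => X v y ∈ Eᶜ
  -- Markov
  have hMarkov : P {y | n ≤ 2 * (Bad y).card} ≤ 4⁻¹ := by
    let f : (V → I) → ℝ≥0∞ := fun y => ∑ v : V, ({y | X v y ∈ Eᶜ} : Set (V → I)).indicator 1 y
    have hf : ∀ y, f y = ((Bad y).card : ℝ≥0∞) := by
      intro y
      simp only [f, Bad, Finset.card_filter, Nat.cast_sum, indicator_apply, mem_ofPred_eq,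
        Pi.one_apply, Nat.cast_ite, Nat.cast_one, Nat.cast_zero]
    have hmeas : ∀ v : V, MeasurableSet {y | X v y ∈ Eᶜ} := fun v => hXm v hEm.compl
    have hfm : Measurable f := by
      refine Finset.measurable_sum _ fun v _ => ?_
      exact measurable_one.indicator (hmeas v)
    have hint : ∫⁻ y, f y ∂P ≤ n * 8⁻¹ := by
      simp only [f]
      rw [lintegral_finsetSum _ fun v _ => measurable_one.indicator (hmeas v)]
      calc ∑ v : V, ∫⁻ y, ({y | X v y ∈ Eᶜ} : Set (V → I)).indicator 1 y ∂P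
          = ∑ v : V, P {y | X v y ∈ Eᶜ} := by
            refine Finset.sum_congr rfl fun v _ => ?_
            rw [lintegral_indicator_one (hmeas v)]
        _ ≤ ∑ _v : V, 8⁻¹ := Finset.sum_le_sum fun v _ => hXE v
        _ = n * 8⁻¹ := by rw [Finset.sum_const, Finset.card_univ, nsmul_eq_mul]
    have h1 := mul_meas_ge_le_lintegral (μ := P) hfm ((n : ℝ≥0∞) / 2)
    have h2 : {y | n ≤ 2 * (Bad y).card} ⊆ {y | (n : ℝ≥0∞) / 2 ≤ f y} := by
      intro y hy
      simp only [mem_ofPred_eq] at hy ⊢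
      rw [hf, ENNReal.div_le_iff (by norm_num) (by norm_num)]
      have : ((n : ℕ) : ℝ≥0∞) ≤ ((2 * (Bad y).card : ℕ) : ℝ≥0∞) := by exact_mod_cast hy
      refine this.trans (le_of_eq ?_)
      push_cast
      ring
    have hnn : (n : ℝ≥0∞) ≠ 0 := by exact_mod_cast hn0.ne'
    have hnt : (n : ℝ≥0∞) ≠ ∞ := ENNReal.natCast_ne_top n
    have h3 : (n : ℝ≥0∞) / 2 * P {y | n ≤ 2 * (Bad y).card} ≤ (n : ℝ≥0∞) / 2 * 4⁻¹ := by
      calc (n : ℝ≥0∞) / 2 * P {y | n ≤ 2 * (Bad y).card}
          ≤ (n : ℝ≥0∞) / 2 * P {y | (n : ℝ≥0∞) / 2 ≤ f y} := by gcongr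
        _ ≤ n * 8⁻¹ := h1.trans hint
        _ = (n : ℝ≥0∞) / 2 * 4⁻¹ := by
          rw [div_eq_mul_inv, mul_assoc, ← ENNReal.mul_inv (by norm_num) (by norm_num)]
          norm_num
    have h4 : (n : ℝ≥0∞) / 2 ≠ 0 := by simp [ENNReal.div_eq_zero_iff, hn0.ne']
    have h5 : (n : ℝ≥0∞) / 2 ≠ ∞ := ENNReal.div_ne_top hnt (by norm_num)
    exact (ENNReal.mul_le_mul_iff_right h4 h5).1 h3
  -- the boxes
  let Box : (V → Fin M) × Finset V × (V → K₁) → Set (V → I) := fun q =>
    if 2 * q.2.1.card ≤ n then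
      Set.pi ((Finset.univ \ q.2.1 : Finset V) : Set V)
        (fun v => {z : I | digit L z = f' (q.2.2 v) fun g => q.1 (v * (g : V))})
    else ∅
  have hR1 : 1 ≤ R := by
    rw [hR]
    have := Nat.mul_pos (Nat.mul_pos (by norm_num : 0 < 4) hM) hK0
    omega
  have hBox : ∀ q, P (Box q) ≤ ((R : ℝ≥0∞)⁻¹) ^ n := by
    rintro ⟨b1, B, κ⟩
    by_cases hq : 2 * B.card ≤ n
    · simp only [Box, hq, if_true]
      have h14 : ∀ v ∈ Finset.univ \ B,
          MeasurableSet {z : I | digit L z = f' (κ v) fun g => b1 (v * (g : V))} :=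
        fun v _ => measurable_digit L (measurableSet_singleton _)
      rw [hP, infinitePi_pi (fun _ : V => (volume : Measure I)) h14]
      calc ∏ v ∈ Finset.univ \ B, (volume : Measure I)
            {z : I | digit L z = f' (κ v) fun g => b1 (v * (g : V))}
          ≤ ∏ _v ∈ Finset.univ \ B, (L : ℝ≥0∞)⁻¹ :=
            Finset.prod_le_prod' fun v _ => volume_digit_le L _
        _ = ((L : ℝ≥0∞)⁻¹) ^ (Finset.univ \ B).card := by rw [Finset.prod_const]
        _ = ((R : ℝ≥0∞)⁻¹) ^ (2 * (Finset.univ \ B).card) := by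
            rw [hL]
            push_cast
            rw [pow_mul, ENNReal.inv_pow]
        _ ≤ ((R : ℝ≥0∞)⁻¹) ^ n := by
            refine pow_le_pow_right_of_le_one' ?_ ?_
            · rw [ENNReal.inv_le_one]
              exact_mod_cast hR1
            · have h6 : (Finset.univ \ B).card = n - B.card := by
                rw [Finset.card_univ_sdiff]
              omega
    · simp only [Box, hq, if_false, measure_empty]
      exact zero_le
  have hcover : {y | ¬ (n ≤ 2 * (Bad y).card)} ⊆ ⋃ q, Box q := by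
    intro y hy
    simp only [mem_ofPred_eq, not_le] at hy
    have hK1 : K₁.Nonempty := Finset.card_pos.1 (by omega)
    obtain ⟨κ0, hκ0⟩ := hK1
    have h7 : ∀ v : V, ∃ κ : K₁, v ∉ Bad y →
        digit L (X v y 1) = f' κ fun g => b' (tr g (X v y)) := by
      intro v
      by_cases hv : v ∈ Bad y
      · exact ⟨⟨κ0, hκ0⟩, fun h => (h hv).elim⟩
      · have h8 : X v y ∈ E := by
          by_contra h9
          exact hv (Finset.mem_filter.2 ⟨Finset.mem_univ _, h9⟩)
        rw [hE] at h8
        obtain ⟨κ, hκ, h9⟩ := h8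
        exact ⟨⟨κ, hκ⟩, fun _ => h9⟩
    choose κ hκ using h7
    refine mem_iUnion.2 ⟨(fun v => b' (X v y), Bad y, κ), ?_⟩
    have h8 : 2 * (Bad y).card ≤ n := hy.le
    simp only [Box, h8, if_true]
    intro v hv
    have hv' : v ∉ Bad y := by simpa using hv
    have h9 := hκ v hv'
    have h10 : X v y 1 = y v := by
      simp only [X, QuotientGroup.mk_one, mul_one]
    have h11 : ∀ g : G, tr g (X v y) = X (v * (g : V)) y := by
      intro g
      funext h
      simp only [tr, X, QuotientGroup.mk_mul, mul_assoc]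
    simp only [h10, h11] at h9
    exact h9
  have hcard : Fintype.card ((V → Fin M) × Finset V × (V → K₁)) = (2 * M * K) ^ n := by
    rw [Fintype.card_prod, Fintype.card_prod, Fintype.card_fun, Fintype.card_fun,
      Fintype.card_finset, Fintype.card_fin, Fintype.card_coe, hK, ← hn, mul_pow, mul_pow]
    ring
  have hS : P {y | ¬ (n ≤ 2 * (Bad y).card)} ≤ 2⁻¹ := by
    calc P {y | ¬ (n ≤ 2 * (Bad y).card)} ≤ P (⋃ q, Box q) := measure_mono hcover
      _ ≤ ∑ q, P (Box q) := measure_iUnion_fintype_le _ _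
      _ ≤ ∑ _q : (V → Fin M) × Finset V × (V → K₁), ((R : ℝ≥0∞)⁻¹) ^ n :=
        Finset.sum_le_sum fun q _ => hBox q
      _ = ((2 * M * K : ℕ) : ℝ≥0∞) ^ n * ((R : ℝ≥0∞)⁻¹) ^ n := by
        rw [Finset.sum_const, Finset.card_univ, hcard, nsmul_eq_mul]
        push_cast
        ring
      _ = (2⁻¹ : ℝ≥0∞) ^ n := by
        rw [← mul_pow]
        congr 1
        have h12 : (R : ℝ≥0∞) = 2 * ((2 * M * K : ℕ) : ℝ≥0∞) := by
          rw [hR]
          push_cast
          ring
        have h13 : ((2 * M * K : ℕ) : ℝ≥0∞) ≠ 0 := by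
          have : 2 * M * K ≠ 0 := by positivity
          exact_mod_cast this
        rw [h12, ENNReal.mul_inv (by norm_num) (by norm_num), mul_comm (2⁻¹ : ℝ≥0∞), ← mul_assoc,
          ENNReal.mul_inv_cancel h13 (ENNReal.natCast_ne_top _), one_mul]
      _ ≤ (2⁻¹ : ℝ≥0∞) ^ 1 := by
        refine pow_le_pow_right_of_le_one' ?_ hn0
        rw [ENNReal.inv_le_one]
        norm_num
      _ = 2⁻¹ := pow_one _
  have h1 : P univ ≤ 4⁻¹ + 2⁻¹ := by
    calc P univ ≤ P ({y | n ≤ 2 * (Bad y).card} ∪ {y | ¬ (n ≤ 2 * (Bad y).card)}) := by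
          refine measure_mono fun y _ => ?_
          exact em _
      _ ≤ P {y | n ≤ 2 * (Bad y).card} + P {y | ¬ (n ≤ 2 * (Bad y).card)} := measure_union_le _ _
      _ ≤ 4⁻¹ + 2⁻¹ := add_le_add hMarkov hS
  rw [measure_univ] at h1
  have h2 : (4⁻¹ + 2⁻¹ : ℝ≥0∞) = ENNReal.ofReal (3 / 4) := by
    rw [show (3 / 4 : ℝ) = 4⁻¹ + 2⁻¹ by norm_num, ENNReal.ofReal_add (by norm_num) (by norm_num),
      ENNReal.ofReal_inv_of_pos (by norm_num), ENNReal.ofReal_inv_of_pos (by norm_num)]
    norm_num
  rw [h2, ENNReal.one_le_ofReal] at h1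
  norm_num at h1

end Main

end TLD
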