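import Mathlib
import Pool.Agent.TLD.CountB

/-!
# TLD Count C: the counting theorem

`G` is a countable residually finite group, `X = [0,1]^G`. If `b : X → Fin M` is measurable and
`x 1 = Ψ ((b (g⁻¹ x))_g, k x)` for almost all `x`, where `k : X → G` is measurable and
`Ψ (·, g)` is measurable for each `g`, then we have a contradiction.
-/

set_option autoImplicit false

open MeasureTheory Measure Set
open scoped ENNReal unitInterval symmDiff

namespace TLD

variable {G : Type*} [Group G]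

/-- a measurable function with values in a countable set is in a finite set outside of a small
set -/
theorem exists_finset_compl_le {X : Type*} [MeasurableSpace X] [Countable G] (μ : Measure X)
    [IsFiniteMeasure μ] (k : X → G) (hk : ∀ g, MeasurableSet {x | k x = g}) {ε : ℝ≥0∞}
    (hε : 0 < ε) : ∃ K₁ : Finset G, K₁.Nonempty ∧ μ {x | k x ∉ K₁} ≤ ε := by
  classical
  have hm : ∀ s : Finset G, MeasurableSet {x | k x ∉ s} := by
    intro s
    have : {x | k x ∉ s} = (⋃ g ∈ s, {x | k x = g})ᶜ := by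
      ext x
      simp
    rw [this]
    exact (Finset.measurableSet_biUnion s fun g _ => hk g).compl
  have h1 := tendsto_measure_iInter_atTop (μ := μ) (s := fun s : Finset G => {x | k x ∉ s})
    (fun s => (hm s).nullMeasurableSet) (fun s t hst x hx hxs => hx (hst hxs))
    ⟨∅, measure_ne_top _ _⟩
  have h2 : ⋂ s : Finset G, {x | k x ∉ s} = ∅ := by
    ext x
    simp only [mem_iInter, mem_ofPred_eq, mem_empty_iff_false, iff_false, not_forall, not_not]
    exact ⟨{k x}, Finset.mem_singleton_self _⟩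
  rw [h2, measure_empty] at h1
  have h3 := (h1.eventually (gt_mem_nhds hε)).and (Filter.eventually_ge_atTop ({1} : Finset G))
  obtain ⟨s, hs, hs1⟩ := h3.exists
  exact ⟨s, ⟨1, hs1 (Finset.mem_singleton_self _)⟩, hs.le⟩

/-- The counting theorem. -/
theorem count [Countable G]
    (hRF : ∀ g : G, g ≠ 1 → ∃ N : Subgroup G, N.Normal ∧ N.FiniteIndex ∧ g ∉ N)
    {M : ℕ} (b : (G → I) → Fin M) (hb : Measurable b)
    (k : (G → I) → G) (hk : ∀ g, MeasurableSet {x | k x = g})
    (Ψ : (G → Fin M) → G → I) (hΨ : ∀ g, Measurable fun β => Ψ β g)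
    (h : ∀ᵐ x ∂(infinitePi (fun _ : G => (volume : Measure I))),
      x 1 = Ψ (fun g => b (fun h => x (g * h))) (k x)) : False := by
  classical
  set μ : Measure (G → I) := infinitePi (fun _ : G => (volume : Measure I)) with hμ
  have hε : (0 : ℝ≥0∞) < 32⁻¹ := by simp
  obtain ⟨K₁, hK1, hKμ⟩ := exists_finset_compl_le μ k hk hε
  set K := K₁.card with hK
  have hK0 : 0 < K := Finset.card_pos.2 hK1
  have hM : 0 < M := (b fun _ => 0).pos
  set R := 4 * M * K with hR
  have hR0 : 0 < R := by positivity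
  set L := R ^ 2 with hL
  have : NeZero L := ⟨by positivity⟩
  let β : (G → I) → (G → Fin M) := fun x g => b (tr g x)
  have hβ : Measurable β := measurable_pi_lambda _ fun g => hb.comp (measurable_tr g)
  have : IsProbabilityMeasure (μ.map β) := isProbabilityMeasure_map hβ.aemeasurable
  have h1 : ∀ κ : G, ∃ (F : Finset G) (f' : (G → Fin M) → Fin L), Measurable f' ∧
      (∀ u v : G → Fin M, (∀ i ∈ F, u i = v i) → f' u = f' v) ∧
      (μ.map β) {u | f' u ≠ digit L (Ψ u κ)} ≤ 32⁻¹ / K := fun κ =>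
    approxFun (μ.map β) ((measurable_digit L).comp (hΨ κ))
      (ENNReal.div_pos hε.ne' (ENNReal.natCast_ne_top K))
  choose Fκ f' hf'm hf'F hf'μ using h1
  set F : Finset G := K₁.biUnion Fκ with hF
  have h2 : ∃ (F' : Finset G) (b' : (G → I) → Fin M), Measurable b' ∧
      (∀ u v : G → I, (∀ i ∈ F', u i = v i) → b' u = b' v) ∧
      μ {x | b' x ≠ b x} ≤ 32⁻¹ / (F.card + 1 : ℕ) :=
    approxFun μ hb (ENNReal.div_pos hε.ne' (ENNReal.natCast_ne_top _))
  obtain ⟨F', b', hb'm, hb'F, hb'μ⟩ := h2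
  -- translates of the approximation of `b`
  have h3 : ∀ g : G, μ {x | b' (tr g x) ≠ b (tr g x)} ≤ 32⁻¹ / (F.card + 1 : ℕ) := by
    intro g
    have h4 : MeasurableSet {x | b' x ≠ b x} := (measurableSet_eq_fun hb'm hb).compl
    have h5 : {x | b' (tr g x) ≠ b (tr g x)} = tr g ⁻¹' {x | b' x ≠ b x} := rfl
    rw [h5, ← map_apply (measurable_tr g) h4, map_tr]
    exact hb'μ
  set E : Set (G → I) := {x | ∃ κ ∈ K₁, digit L (x 1) = f' κ fun g => b' (tr g x)} with hE
  have hbm : Measurable (fun (x : G → I) (g : G) => b' (tr g x)) :=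
    measurable_pi_lambda _ fun g => hb'm.comp (measurable_tr g)
  have hEm : MeasurableSet E := by
    have : E = ⋃ κ ∈ K₁, {x | digit L (x 1) = f' κ fun g => b' (tr g x)} := by
      ext x
      simp [hE]
    rw [this]
    refine Finset.measurableSet_biUnion _ fun κ _ => ?_
    exact measurableSet_eq_fun ((measurable_digit L).comp (measurable_pi_apply 1))
      ((hf'm κ).comp hbm)
  set Wn : Finset G := insert 1 (Finset.image₂ (· * ·) F F') with hWn
  have hW1 : ∀ x x' : G → I, (∀ w ∈ Wn, x w = x' w) → x ∈ E → x' ∈ E := by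
    rintro x x' hxx ⟨κ, hκ, h4⟩
    refine ⟨κ, hκ, ?_⟩
    rw [← hxx 1 (Finset.mem_insert_self _ _), h4]
    refine hf'F κ _ _ fun g hg => hb'F _ _ fun h' hh' => ?_
    refine hxx _ (Finset.mem_insert_of_mem (Finset.mem_image₂_of_mem ?_ hh'))
    exact Finset.mem_biUnion.2 ⟨κ, hκ, hg⟩
  have hW : ∀ x x' : G → I, (∀ w ∈ Wn, x w = x' w) → (x ∈ E ↔ x' ∈ E) := fun x x' hxx =>
    ⟨hW1 x x' hxx, hW1 x' x fun w hw => (hxx w hw).symm⟩
  have hEc : μ Eᶜ ≤ 8⁻¹ := by
    have h4 : Eᶜ ⊆ {x | k x ∉ K₁} ∪ ((⋃ κ ∈ K₁, {x | f' κ (β x) ≠ digit L (Ψ (β x) κ)}) ∪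
        ((⋃ g ∈ F, {x | b' (tr g x) ≠ b (tr g x)}) ∪ {x | ¬ x 1 = Ψ (β x) (k x)})) := by
      intro x hx
      by_contra hcon
      simp only [mem_union, mem_iUnion, mem_ofPred_eq, not_or, not_not, not_exists] at hcon
      obtain ⟨hc1, hc2, hc3, hc4⟩ := hcon
      apply hx
      refine ⟨k x, hc1, ?_⟩
      rw [hc4, ← hc2 (k x) hc1]
      refine hf'F (k x) _ _ fun g hg => ?_
      exact (hc3 g (Finset.mem_biUnion.2 ⟨k x, hc1, hg⟩)).symm
    have h5 : μ (⋃ κ ∈ K₁, {x | f' κ (β x) ≠ digit L (Ψ (β x) κ)}) ≤ 32⁻¹ := by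
      calc μ (⋃ κ ∈ K₁, {x | f' κ (β x) ≠ digit L (Ψ (β x) κ)})
          ≤ ∑ κ ∈ K₁, μ {x | f' κ (β x) ≠ digit L (Ψ (β x) κ)} := measure_biUnion_finset_le _ _
        _ ≤ ∑ _κ ∈ K₁, 32⁻¹ / (K : ℝ≥0∞) := by
          refine Finset.sum_le_sum fun κ _ => ?_
          refine le_trans (le_of_eq ?_) (hf'μ κ)
          rw [map_apply hβ]
          · rfl
          · exact (measurableSet_eq_fun (hf'm κ)
              ((measurable_digit L).comp (hΨ κ))).compl
        _ = 32⁻¹ := by
          rw [Finset.sum_const, nsmul_eq_mul, ← hK]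
          exact ENNReal.mul_div_cancel (by exact_mod_cast hK0.ne') (ENNReal.natCast_ne_top _)
    have h6 : μ (⋃ g ∈ F, {x | b' (tr g x) ≠ b (tr g x)}) ≤ 32⁻¹ := by
      calc μ (⋃ g ∈ F, {x | b' (tr g x) ≠ b (tr g x)})
          ≤ ∑ g ∈ F, μ {x | b' (tr g x) ≠ b (tr g x)} := measure_biUnion_finset_le _ _
        _ ≤ ∑ _g ∈ F, 32⁻¹ / ((F.card + 1 : ℕ) : ℝ≥0∞) := Finset.sum_le_sum fun g _ => h3 g
        _ = F.card * (32⁻¹ / ((F.card + 1 : ℕ) : ℝ≥0∞)) := by
          rw [Finset.sum_const, nsmul_eq_mul]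
        _ ≤ ((F.card + 1 : ℕ) : ℝ≥0∞) * (32⁻¹ / ((F.card + 1 : ℕ) : ℝ≥0∞)) := by
          gcongr
          omega
        _ = 32⁻¹ := ENNReal.mul_div_cancel (by simp) (ENNReal.natCast_ne_top _)
    have h7 : μ {x | ¬ x 1 = Ψ (β x) (k x)} = 0 := ae_iff.1 h
    calc μ Eᶜ ≤ _ := measure_mono h4
      _ ≤ 32⁻¹ + (32⁻¹ + (32⁻¹ + 0)) := by
        refine (measure_union_le _ _).trans (add_le_add hKμ ?_)
        refine (measure_union_le _ _).trans (add_le_add h5 ?_)
        exact (measure_union_le _ _).trans (add_le_add h6 h7.le)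
      _ ≤ 8⁻¹ := by
        have h8 : (32⁻¹ + (32⁻¹ + (32⁻¹ + 0)) : ℝ≥0∞) = ENNReal.ofReal (3 / 32) := by
          rw [show (3 / 32 : ℝ) = 32⁻¹ + (32⁻¹ + 32⁻¹) by norm_num,
            ENNReal.ofReal_add (by norm_num) (by norm_num),
            ENNReal.ofReal_add (by norm_num) (by norm_num),
            ENNReal.ofReal_inv_of_pos (by norm_num)]
          norm_num
        have h9 : (8⁻¹ : ℝ≥0∞) = ENNReal.ofReal (8⁻¹) := by
          rw [ENNReal.ofReal_inv_of_pos (by norm_num)]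
          norm_num
        rw [h8, h9]
        exact ENNReal.ofReal_le_ofReal (by norm_num)
  exact model_count hM hL hR K₁ hK.symm hK0 f' b' hE hEm Wn hW hRF hEc

end TLD
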