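import Pool.Agent.TLD.SysF

/-! Package TLD Select (D1): T-selection.

PROOF. Take `F`, `B` from `exists_F`. `μ B > 0` since `μ.real Bᶜ ≤ 32 C ∑ < 1`.
Let `P ω g` be `1/2 < F g ω` and `ρ ω = lst (P ω)`, so `CM ρ` (`lst_CM`). Let
`U = {ω | (∃ g, P ω g) ∧ ∀ g g', P ω g → P ω g' → ξ (a g ω) = ξ (a g' ω)}`, a measurable set
(countable operations; `hξ`).
(a) `B ⊆ U` and on `B` `ξ (a (ρ ω) ω) = ξ ω`: on `B`, `P ω 1` holds and `P ω g` implies
`ξ (a g ω) = ξ ω`.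
(b) `U` is a.e. invariant: for a.e. `ω`, `F (g * h⁻¹) (a h ω) = F g ω` for all `g`, i.e.
`P (a h ω) g ↔ P ω (g * h)` (put `g * h` for `g`), and `ξ (a g (a h ω)) = ξ (a (g * h) ω)`
by `ha.mul`;
`g ↦ g * h` is a bijection, so `a h ω ∈ U ↔ ω ∈ U`. By `herg` `U` is conull.
(c) INVARIANCE of `ξ (a (ρ ω) ω)`: for a.e. `ω` (in `U`, with the property in (b)): `P ω (ρ ω)`,
and with `k = ρ (a g ω)`:
`P (a g ω) k` (`a g ω ∈ U` so there is some), i.e. `P ω (k * g)`, so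
`ξ (a (k * g) ω) = ξ (a (ρ ω) ω)`, and `a (k * g) ω = a k (a g ω)`.
(d) `{ω | ξ (a (ρ ω) ω) ≠ ξ ω} ⊆ Bᶜ`: `measureReal_mono`. -/

set_option autoImplicit false

open MeasureTheory Filter Topology

namespace Pool.Agent.TLD

theorem select {G Ω DD : Type} [Group G] [Countable G] [MeasurableSpace Ω] {μ : Measure Ω}
    [IsProbabilityMeasure μ] {a : G → Ω → Ω} {ξ : Ω → DD} (ha : PAct μ a) (herg : Erg μ a)
    {n : ℕ} {x : Fin n → G} {C : ℝ} (hgap : TLA.HasGap x C)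
    (hξ : ∀ g h, MeasurableSet {ω | ξ (a g ω) = ξ (a h ω)})
    (hsmall : 32 * C * ∑ i, μ.real {ω | ξ (a (x i) ω) ≠ ξ ω} < 1) :
    ∃ ρ : Ω → G, CM ρ ∧
      (∀ g, ∀ᵐ ω ∂μ, ξ (a (ρ (a g ω)) (a g ω)) = ξ (a (ρ ω) ω)) ∧
      μ.real {ω | ξ (a (ρ ω) ω) ≠ ξ ω} ≤ 32 * C * ∑ i, μ.real {ω | ξ (a (x i) ω) ≠ ξ ω} := by
  classical
  obtain ⟨F, B, hF, -, hinv, hB, hBm, hBF⟩ := exists_F ha hgap hξ
  obtain ⟨P, hP⟩ : ∃ P : Ω → G → Prop, ∀ ω g, P ω g ↔ 1 / 2 < F g ω :=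
    ⟨fun ω g => 1 / 2 < F g ω, fun _ _ => Iff.rfl⟩
  have hPm : ∀ g, MeasurableSet {ω | P ω g} := by
    intro g
    have h1 : {ω | P ω g} = {ω | 1 / 2 < F g ω} := by
      ext ω
      exact hP ω g
    rw [h1]
    exact measurableSet_lt measurable_const (hF g)
  let U : Set Ω := {ω | (∃ g, P ω g) ∧ ∀ g g', P ω g → P ω g' → ξ (a g ω) = ξ (a g' ω)}
  have hU : MeasurableSet U := by
    have h1 : MeasurableSet {ω | ∃ g, P ω g} := by
      have : {ω | ∃ g, P ω g} = ⋃ g, {ω | P ω g} := by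
        ext ω
        simp
      rw [this]
      exact MeasurableSet.iUnion hPm
    have h2 : MeasurableSet {ω | ∀ g g', P ω g → P ω g' → ξ (a g ω) = ξ (a g' ω)} := by
      have : {ω | ∀ g g', P ω g → P ω g' → ξ (a g ω) = ξ (a g' ω)} =
          ⋂ g, ⋂ g', ({ω | P ω g}ᶜ ∪ ({ω | P ω g'}ᶜ ∪ {ω | ξ (a g ω) = ξ (a g' ω)})) := by
        ext ω
        simp only [Set.mem_ofPred_eq, Set.mem_iInter, Set.mem_union, Set.mem_compl_iff]
        constructor
        · intro h g g'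
          by_cases h3 : P ω g
          · by_cases h4 : P ω g'
            · exact Or.inr (Or.inr (h g g' h3 h4))
            · exact Or.inr (Or.inl h4)
          · exact Or.inl h3
        · intro h g g' h3 h4
          rcases h g g' with h5 | h5 | h5
          · exact absurd h3 h5
          · exact absurd h4 h5
          · exact h5
      rw [this]
      exact MeasurableSet.iInter fun g => MeasurableSet.iInter fun g' =>
        (hPm g).compl.union ((hPm g').compl.union (hξ g g'))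
    exact h1.inter h2
  have hB1 : ∀ ω ∈ B, P ω 1 := by
    intro ω hω
    rw [hP]
    linarith [(hBF ω hω).1]
  have hB2 : ∀ ω ∈ B, ∀ g, P ω g → ξ (a g ω) = ξ ω := by
    intro ω hω g hg
    by_contra hne
    have h1 := (hBF ω hω).2 g hne
    rw [hP] at hg
    linarith
  have hBU : B ⊆ U := by
    intro ω hω
    exact ⟨⟨1, hB1 ω hω⟩, fun g g' hg hg' => by rw [hB2 ω hω g hg, hB2 ω hω g' hg']⟩
  have hμB : μ B ≠ 0 := by
    intro h0
    have h1 : μ Bᶜ = 1 := (prob_compl_eq_one_iff hB).2 h0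
    have h2 : μ.real Bᶜ = 1 := by simp [measureReal_def, h1]
    linarith
  have hPinv : ∀ h, ∀ᵐ ω ∂μ, ∀ g, P (a h ω) g ↔ P ω (g * h) := by
    intro h
    filter_upwards [hinv h] with ω hω g
    have h1 := hω (g * h)
    rw [mul_inv_cancel_right] at h1
    rw [hP, hP, h1]
  have hUP : ∀ h ω, (∀ g, P (a h ω) g ↔ P ω (g * h)) → (a h ω ∈ U ↔ ω ∈ U) := by
    intro h ω hω
    constructor
    · rintro ⟨⟨g, hg⟩, h2⟩
      refine ⟨⟨g * h, (hω g).1 hg⟩, ?_⟩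
      intro k k' hk hk'
      have h3 := h2 (k * h⁻¹) (k' * h⁻¹) ((hω _).2 (by rwa [inv_mul_cancel_right]))
        ((hω _).2 (by rwa [inv_mul_cancel_right]))
      rwa [← ha.mul, ← ha.mul, inv_mul_cancel_right, inv_mul_cancel_right] at h3
    · rintro ⟨⟨g, hg⟩, h2⟩
      refine ⟨⟨g * h⁻¹, (hω _).2 (by rwa [inv_mul_cancel_right])⟩, ?_⟩
      intro k k' hk hk'
      rw [← ha.mul, ← ha.mul]
      exact h2 _ _ ((hω k).1 hk) ((hω k').1 hk')
  have hUae : ∀ᵐ ω ∂μ, ω ∈ U := by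
    refine herg U hU ?_ ?_
    · intro h
      filter_upwards [hPinv h] with ω hω
      exact hUP h ω hω
    · intro h0
      exact hμB (measure_mono_null hBU h0)
  refine ⟨fun ω => lst (P ω), lst_CM hPm, ?_, ?_⟩
  · intro g
    filter_upwards [hPinv g, hUae] with ω hω hω'
    have h1 : P ω (lst (P ω)) := lst_spec hω'.1
    have h2 : a g ω ∈ U := (hUP g ω hω).2 hω'
    have h3 : P (a g ω) (lst (P (a g ω))) := lst_spec h2.1
    have h4 := (hω _).1 h3
    have h5 := hω'.2 _ _ h4 h1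
    rw [ha.mul] at h5
    exact h5
  · refine le_trans (measureReal_mono ?_) hBm
    intro ω hω hωB
    exact hω (hB2 ω hωB _ (lst_spec ⟨1, hB1 ω hωB⟩))

end Pool.Agent.TLD
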