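import Pool.Agent.TLD.Koopman
import Pool.Agent.TLD.Sys

/-! Package TLD SysF: an invariant function close to the delta function of the class of `ω`.

PROOF. Put the discrete sigma-algebra on `G`. `M = Ω × G`, `m = mM μ a ξ`, `φ = phi a ξ`. Let `f` be the
indicator function of `A = {(ω, g) | ξ (a g ω) = ξ ω}`; by `mM_apply` `m A = 1`, so `f ∈ L²`. Apply
`koopman m hgap phi_mul phi_one phi_mp` to `f`: `f₀`, invariant, `∫ (f - f₀)² ∂m ≤ C ∑ ∫ (f - f ∘ φ (x i))² ∂m`.
(a) `(f - f ∘ φ h)²` is the indicator function of the set `D` of the `(ω, g)` for which exactly one of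
`ξ (a g ω) = ξ ω`, `ξ (a g ω) = ξ (a h ω)` holds, and `m D = 2 μ {ω | ξ (a h ω) ≠ ξ ω}` (`mM_apply`, partition along
`cls ω 1` and along `cls ω h`).
(b) `F g ω = f₀ (ω, cls ω g)`. (c) Invariance: `mM_apply` for the set of the bad points.
(d) `T = {p | 1/16 ≤ (f p - f₀ p)²}`, `B` the set of the `ω` such that `(ω, k)` is not in `T` whenever `cls ω k = k`;
Chebyshev. -/

set_option autoImplicit false

open MeasureTheory Filter Topology

namespace Pool.Agent.TLD

/-- Partition of a measurable set along a map with measurable fibres. -/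
private theorem SysF_partition {G Ω : Type} [Countable G] [MeasurableSpace Ω] (μ : Measure Ω)
    {r : Ω → G} (hr : CM r) {A : Set Ω} (hA : MeasurableSet A) :
    ∑' k : G, μ {ω | r ω = k ∧ ω ∈ A} = μ A := by
  rw [← measure_iUnion]
  · congr 1
    ext ω
    simp
  · intro k l hkl
    rw [Function.onFun, Set.disjoint_left]
    rintro ω ⟨h1, -⟩ ⟨h2, -⟩
    exact hkl (h1.symm.trans h2)
  · intro k
    exact (hr k).inter hA

theorem exists_F {G Ω DD : Type} [Group G] [Countable G] [MeasurableSpace Ω] {μ : Measure Ω}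
    [IsProbabilityMeasure μ] {a : G → Ω → Ω} {ξ : Ω → DD} (ha : PAct μ a) {n : ℕ}
    {x : Fin n → G} {C : ℝ} (hgap : TLA.HasGap x C)
    (hξ : ∀ g h, MeasurableSet {ω | ξ (a g ω) = ξ (a h ω)}) :
    ∃ (F : G → Ω → ℝ) (B : Set Ω), (∀ g, Measurable (F g)) ∧
      (∀ ω g g', ξ (a g ω) = ξ (a g' ω) → F g ω = F g' ω) ∧
      (∀ h, ∀ᵐ ω ∂μ, ∀ g, F (g * h⁻¹) (a h ω) = F g ω) ∧
      MeasurableSet B ∧
      μ.real Bᶜ ≤ 32 * C * ∑ i, μ.real {ω | ξ (a (x i) ω) ≠ ξ ω} ∧
      ∀ ω ∈ B, 3 / 4 < F 1 ω ∧ ∀ g, ξ (a g ω) ≠ ξ ω → F g ω < 1 / 4 := by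
  classical
  let _ : MeasurableSpace G := ⊤
  have _ : DiscreteMeasurableSpace G := ⟨fun _ => trivial⟩
  have hξ1 : ∀ g, MeasurableSet {ω | ξ (a g ω) = ξ ω} := by
    intro g
    have := hξ g 1
    simpa only [ha.one] using this
  have hcls1 : ∀ ω k, (cls a ξ ω k = k ∧ ξ (a k ω) = ξ ω) ↔ cls a ξ ω 1 = k := by
    intro ω k
    constructor
    · rintro ⟨h1, h2⟩
      have : ξ (a 1 ω) = ξ (a k ω) := by rw [ha.one, h2]
      rw [cls_congr this, h1]
    · rintro rfl
      refine ⟨cls_cls ω 1, (cls_spec (a := a) (ξ := ξ) ω 1).trans ?_⟩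
      rw [ha.one]
  have hclsh : ∀ h ω k, (cls a ξ ω k = k ∧ ξ (a k ω) = ξ (a h ω)) ↔ cls a ξ ω h = k := by
    intro h ω k
    constructor
    · rintro ⟨h1, h2⟩
      rw [← cls_congr h2, h1]
    · rintro rfl
      exact ⟨cls_cls ω h, cls_spec ω h⟩
  -- the set `A`
  set A : Set (Ω × G) := {p | ξ (a p.2 p.1) = ξ p.1} with hAdef
  have hprod : ∀ P : Ω → G → Prop, (∀ g, MeasurableSet {ω | P ω g}) →
      MeasurableSet {p : Ω × G | P p.1 p.2} := by
    intro P hP
    have : {p : Ω × G | P p.1 p.2} = ⋃ g : G, {ω | P ω g} ×ˢ {g} := by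
      ext ⟨ω, g⟩
      simp
    rw [this]
    exact MeasurableSet.iUnion fun g => (hP g).prod (MeasurableSet.singleton g)
  have hA : MeasurableSet A := hprod (fun ω g => ξ (a g ω) = ξ ω) hξ1
  have hmA : mM μ a ξ A = 1 := by
    rw [mM_apply hξ hA]
    have : ∀ k : G, {ω | cls a ξ ω k = k ∧ (ω, k) ∈ A} =
        {ω | cls a ξ ω 1 = k ∧ ω ∈ (Set.univ : Set Ω)} := by
      intro k
      ext ω
      simp only [Set.mem_ofPred_eq, Set.mem_univ, and_true]
      exact hcls1 ω k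
    simp only [this]
    rw [SysF_partition μ (cls_CM hξ 1) MeasurableSet.univ, measure_univ]
  set f : Ω × G → ℝ := A.indicator (fun _ => (1 : ℝ)) with hf
  have hfL : MemLp f 2 (mM μ a ξ) := by
    refine memLp_indicator_const 2 hA 1 (Or.inr ?_)
    rw [hmA]
    exact ENNReal.one_ne_top
  have hfm : Measurable f := measurable_const.indicator hA
  obtain ⟨f₀, hf₀m, hf₀L, hinv, hgapf⟩ := koopman (mM μ a ξ) hgap (φ := phi a ξ)
    (fun g h => Eventually.of_forall fun p => phi_mul ha g h p) (phi_one ha hξ)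
    (fun g => phi_mp ha hξ g) hfL
  -- (a)
  have ha1 : ∀ h : G, ∫ p, (f p - f (phi a ξ h p)) ^ 2 ∂mM μ a ξ =
      2 * μ.real {ω | ξ (a h ω) ≠ ξ ω} := by
    intro h
    set D : Set (Ω × G) :=
      {p | ¬ (ξ (a p.2 p.1) = ξ p.1 ↔ ξ (a p.2 p.1) = ξ (a h p.1))} with hDdef
    have hD : MeasurableSet D := by
      refine hprod (fun ω g => ¬ (ξ (a g ω) = ξ ω ↔ ξ (a g ω) = ξ (a h ω))) fun g => ?_
      have h1 := hξ1 g
      have h2 := hξ g h
      exact (MeasurableSet.iff h1 h2).compl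
    have hNe : MeasurableSet {ω | ξ (a h ω) ≠ ξ ω} := (hξ1 h).compl
    have e1 : (fun p => (f p - f (phi a ξ h p)) ^ 2) = D.indicator (fun _ => (1 : ℝ)) := by
      funext p
      obtain ⟨ω, g⟩ := p
      have e2 : phi a ξ h (ω, g) ∈ A ↔ ξ (a g ω) = ξ (a h ω) := by
        have e7 := cls_spec (a := a) (ξ := ξ) (a h ω) (g * h⁻¹)
        rw [← ha.mul (g * h⁻¹) h, inv_mul_cancel_right] at e7
        change ξ (a (cls a ξ (a h ω) (g * h⁻¹)) (a h ω)) = ξ (a h ω) ↔ _
        rw [e7]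
      have e3 : (ω, g) ∈ A ↔ ξ (a g ω) = ξ ω := Iff.rfl
      have e4 : (ω, g) ∈ D ↔ ¬ (ξ (a g ω) = ξ ω ↔ ξ (a g ω) = ξ (a h ω)) := Iff.rfl
      by_cases c1 : ξ (a g ω) = ξ ω
      · by_cases c2 : ξ (a g ω) = ξ (a h ω)
        · rw [hf, Set.indicator_of_mem (e3.2 c1), Set.indicator_of_mem (e2.2 c2),
            Set.indicator_of_notMem (by rw [e4]; exact fun hh => hh ⟨fun _ => c2, fun _ => c1⟩)]
          norm_num
        · rw [hf, Set.indicator_of_mem (e3.2 c1), Set.indicator_of_notMem (fun hh => c2 (e2.1 hh)),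
            Set.indicator_of_mem (e4.2 (fun hh => c2 (hh.1 c1)))]
          norm_num
      · by_cases c2 : ξ (a g ω) = ξ (a h ω)
        · rw [hf, Set.indicator_of_notMem (fun hh => c1 (e3.1 hh)), Set.indicator_of_mem (e2.2 c2),
            Set.indicator_of_mem (e4.2 (fun hh => c1 (hh.2 c2)))]
          norm_num
        · rw [hf, Set.indicator_of_notMem (fun hh => c1 (e3.1 hh)),
            Set.indicator_of_notMem (fun hh => c2 (e2.1 hh)),
            Set.indicator_of_notMem (by rw [e4]; exact fun hh => hh (iff_of_false c1 c2))]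
          norm_num
    rw [e1, integral_indicator_const _ hD, smul_eq_mul, mul_one]
    have e5 : mM μ a ξ D = 2 * μ {ω | ξ (a h ω) ≠ ξ ω} := by
      rw [mM_apply hξ hD]
      have e6 : ∀ k : G, μ {ω | cls a ξ ω k = k ∧ (ω, k) ∈ D} =
          μ {ω | cls a ξ ω 1 = k ∧ ω ∈ {ω | ξ (a h ω) ≠ ξ ω}} +
          μ {ω | cls a ξ ω h = k ∧ ω ∈ {ω | ξ (a h ω) ≠ ξ ω}} := by
        intro k
        rw [← measure_union]
        · congr 1
          ext ω
          simp only [Set.mem_ofPred_eq, Set.mem_union, hDdef]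
          rw [← hcls1 ω k, ← hclsh h ω k]
          constructor
          · rintro ⟨h1, h2⟩
            by_cases c1 : ξ (a k ω) = ξ ω
            · left
              refine ⟨⟨h1, c1⟩, fun h3 => h2 ?_⟩
              rw [h3]
            · right
              by_cases c2 : ξ (a k ω) = ξ (a h ω)
              · exact ⟨⟨h1, c2⟩, fun h3 => c1 (c2.trans h3)⟩
              · exact absurd (iff_of_false c1 c2) h2
          · rintro (⟨⟨h1, h2⟩, h3⟩ | ⟨⟨h1, h2⟩, h3⟩)
            · exact ⟨h1, fun h4 => h3 ((h4.1 h2).symm.trans h2)⟩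
            · exact ⟨h1, fun h4 => h3 (h2.symm.trans (h4.2 h2))⟩
        · rw [Set.disjoint_left]
          rintro ω ⟨h1, h3⟩ ⟨h2, -⟩
          have h4 := ((hcls1 ω k).2 h1).2
          have h5 := ((hclsh h ω k).2 h2).2
          exact h3 (h5.symm.trans h4)
        · exact (cls_CM hξ h k).inter hNe
      rw [tsum_congr e6, ENNReal.tsum_add, SysF_partition μ (cls_CM hξ 1) hNe,
        SysF_partition μ (cls_CM hξ h) hNe, two_mul]
    rw [Measure.real, e5, ENNReal.toReal_mul]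
    rfl
  have hint : ∫ p, (f p - f₀ p) ^ 2 ∂mM μ a ξ ≤
      2 * C * ∑ i, μ.real {ω | ξ (a (x i) ω) ≠ ξ ω} := by
    refine hgapf.trans (le_of_eq ?_)
    simp only [ha1]
    rw [← Finset.mul_sum]
    ring
  -- Chebyshev
  have hInt : Integrable (fun p => (f p - f₀ p) ^ 2) (mM μ a ξ) := by
    have := (hfL.sub hf₀L).integrable_sq
    exact this
  set T : Set (Ω × G) := {p | (1 / 16 : ℝ) ≤ (f p - f₀ p) ^ 2} with hTdef
  have hT : MeasurableSet T := by
    have hm : Measurable (fun p => (f p - f₀ p) ^ 2) := (hfm.sub hf₀m).pow_const 2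
    exact measurableSet_le measurable_const hm
  have hTlt : mM μ a ξ T < ⊤ := hInt.measure_ge_lt_top (by norm_num)
  have hTle : (mM μ a ξ).real T ≤ 32 * C * ∑ i, μ.real {ω | ξ (a (x i) ω) ≠ ξ ω} := by
    have h1 := mul_meas_ge_le_integral_of_nonneg (μ := mM μ a ξ)
      (f := fun p => (f p - f₀ p) ^ 2) (Eventually.of_forall fun p => sq_nonneg _) hInt (1 / 16)
    have h2 := h1.trans hint
    have h3 : (mM μ a ξ).real T = (mM μ a ξ).real {p | (1 / 16 : ℝ) ≤ (f p - f₀ p) ^ 2} := rfl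
    rw [h3]
    linarith
  set Bc : Set Ω := ⋃ k : G, {ω | cls a ξ ω k = k ∧ (ω, k) ∈ T} with hBcdef
  have hsec : ∀ k : G, Measurable (fun ω : Ω => ((ω, k) : Ω × G)) := fun k =>
    measurable_id.prodMk measurable_const
  have hBc : MeasurableSet Bc :=
    MeasurableSet.iUnion fun k => (cls_CM hξ k k).inter (hsec k hT)
  refine ⟨fun g ω => f₀ (ω, cls a ξ ω g), Bcᶜ, ?_, ?_, ?_, hBc.compl, ?_, ?_⟩
  · intro g
    exact (cls_CM hξ g).measurable_glue (F := fun e ω => f₀ (ω, e)) fun e => hf₀m.comp (hsec e)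
  · intro ω g g' h
    simp only
    rw [cls_congr h]
  · intro h
    have hE : MeasurableSet {p | f₀ (phi a ξ h p) ≠ f₀ p} :=
      (measurableSet_eq_fun (hf₀m.comp (measurable_phi ha hξ h)) hf₀m).compl
    have h1 : mM μ a ξ {p | f₀ (phi a ξ h p) ≠ f₀ p} = 0 := ae_iff.1 (hinv h)
    rw [mM_apply hξ hE, ENNReal.tsum_eq_zero] at h1
    have h2 : ∀ᵐ ω ∂μ, ∀ k : G, ¬ (cls a ξ ω k = k ∧ f₀ (phi a ξ h (ω, k)) ≠ f₀ (ω, k)) := by
      rw [ae_all_iff]
      intro k
      rw [ae_iff]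
      simp only [not_not]
      exact h1 k
    filter_upwards [h2] with ω hω g
    have h3 := hω (cls a ξ ω g)
    have h4 : f₀ (phi a ξ h (ω, cls a ξ ω g)) = f₀ (ω, cls a ξ ω g) := by
      by_contra h5
      exact h3 ⟨cls_cls ω g, h5⟩
    have h6 : cls a ξ (a h ω) (cls a ξ ω g * h⁻¹) = cls a ξ (a h ω) (g * h⁻¹) := by
      apply cls_congr
      rw [← ha.mul, ← ha.mul, inv_mul_cancel_right, inv_mul_cancel_right]
      exact cls_spec ω g
    change f₀ (a h ω, cls a ξ (a h ω) (g * h⁻¹)) = f₀ (ω, cls a ξ ω g)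
    rw [← h4, ← h6]
    rfl
  · rw [compl_compl]
    refine le_trans ?_ hTle
    rw [Measure.real, Measure.real]
    refine ENNReal.toReal_mono hTlt.ne ?_
    rw [mM_apply hξ hT]
    exact measure_iUnion_le _
  · intro ω hω
    have hω' : ∀ k, cls a ξ ω k = k → (f (ω, k) - f₀ (ω, k)) ^ 2 < 1 / 16 := by
      intro k hk
      by_contra h1
      exact hω (Set.mem_iUnion.2 ⟨k, hk, not_lt.1 h1⟩)
    have habs : ∀ k, cls a ξ ω k = k → |f (ω, k) - f₀ (ω, k)| < 1 / 4 := by
      intro k hk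
      have h1 := hω' k hk
      apply abs_lt_of_sq_lt_sq _ (by norm_num)
      norm_num
      linarith
    constructor
    · have h1 := habs _ (cls_cls ω 1)
      have h2 : f (ω, cls a ξ ω 1) = 1 := by
        rw [hf, Set.indicator_of_mem]
        exact ((hcls1 ω _).2 rfl).2
      rw [h2] at h1
      have := (abs_lt.1 h1).2
      simp only
      linarith
    · intro g hg
      have h1 := habs _ (cls_cls ω g)
      have h2 : f (ω, cls a ξ ω g) = 0 := by
        rw [hf, Set.indicator_of_notMem]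
        intro h3
        apply hg
        have h4 : ξ (a (cls a ξ ω g) ω) = ξ ω := h3
        rw [← h4]
        exact (cls_spec ω g).symm
      rw [h2] at h1
      have := (abs_lt.1 h1).1
      simp only
      linarith

end Pool.Agent.TLD
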