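import Pool.Agent.TLD.Basic

/-! Package TLD Window: approximation of a countable valued map by a map of finitely many coordinates.

PROOF. If `E` is empty then `ι → Z` is empty (`F` maps into `E`) and `F' = F` works. Otherwise enumerate: choose
an injection `c : E → ℕ`. Let `E_N = {e | c e < N}` (finite). `μ.real {x | F x ∉ E_N} → 0` as `N → ∞` (decreasing
measurable sets with empty intersection: `tendsto_measure_iInter_atTop`/`tendsto_measure_biUnion..`), so choose `N` with
`μ.real {x | F x ∉ E_N} ≤ ε / 2`. For every `e` in the finite set `E_N` the set `A_e = {x | F x = e}` is measurable, so by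
`exists_measure_symmDiff_lt_of_generateFrom_isSetRing` applied to `C = measurableCylinders (fun _ : ι => Z)` (Mathlib:
`isSetRing_measurableCylinders`/`isSetAlgebra_measurableCylinders`, `generateFrom_measurableCylinders`) there is a
cylinder `C_e` with `μ (symmDiff C_e A_e) < ε / (2 (N + 1))`. Each `C_e` is determined by the coordinates in a finset
`S_e` (`mem_measurableCylinders`: `C_e = cylinder S_e T_e`) and is measurable. Put `S = ⋃ S_e` and
`F' x` = the `e ∈ E_N` with `x ∈ C_e` of least code `c e` if there is one, and a fixed `e₀` otherwise. `F'` is determined by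
the finitely many conditions `x ∈ C_e`, so it depends only on the coordinates in `S` and its fibres are
measurable (finite boolean combinations). If `F x = e ∈ E_N` and `x` is in no `symmDiff C_{e'} A_{e'}`, `e' ∈ E_N`, then `x ∈ C_e`
and `x ∉ C_{e'}` for `e' ≠ e`, so `F' x = e`. Hence `{F ≠ F'}` is contained in
`{F ∉ E_N} ∪ ⋃_{e ∈ E_N} symmDiff C_e A_e`, of measure `≤ ε/2 + N ε/(2(N+1)) ≤ ε`. -/

set_option autoImplicit false

open MeasureTheory Filter Topology

namespace Pool.Agent.TLD

/-- The sets where the code is large have small measure. -/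
theorem window_tail {Ω E : Type} [MeasurableSpace Ω] [Countable E] (μ : Measure Ω)
    [IsFiniteMeasure μ] {F : Ω → E} (hF : CM F) (c : E → ℕ) {δ : ENNReal} (hδ : 0 < δ) :
    ∃ N : ℕ, μ {x | N ≤ c (F x)} < δ := by
  have hm : ∀ N : ℕ, MeasurableSet {x | N ≤ c (F x)} := fun N => hF.mem {e | N ≤ c e}
  have hanti : Antitone (fun N : ℕ => {x | N ≤ c (F x)}) := by
    intro i j hij x hx
    exact le_trans hij hx
  have h := tendsto_measure_iInter_atTop (μ := μ) (fun N => (hm N).nullMeasurableSet) hanti
    ⟨0, measure_ne_top _ _⟩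
  have hemp : ⋂ N : ℕ, {x | N ≤ c (F x)} = ∅ := by
    ext x
    simp only [Set.mem_iInter, Set.mem_ofPred_eq, Set.mem_empty_iff_false, iff_false, not_forall]
    exact ⟨c (F x) + 1, by omega⟩
  rw [hemp, measure_empty] at h
  exact ((tendsto_order.1 h).2 _ hδ).exists

theorem window {ι Z E : Type} [MeasurableSpace Z] [Countable E]
    (μ : Measure (ι → Z)) [IsFiniteMeasure μ] {F : (ι → Z) → E} (hF : CM F) {ε : ℝ}
    (hε : 0 < ε) :
    ∃ (S : Finset ι) (F' : (ι → Z) → E), CM F' ∧
      (∀ x y : ι → Z, (∀ i ∈ S, x i = y i) → F' x = F' y) ∧ μ.real {x | F x ≠ F' x} ≤ ε := by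
  classical
  rcases isEmpty_or_nonempty E with hE | hE
  · refine ⟨∅, F, hF, fun x y _ => ?_, ?_⟩
    · exact (hE.false (F x)).elim
    · have : {x | F x ≠ F x} = ∅ := by
        ext x
        simp
      rw [this]
      simpa using hε.le
  obtain ⟨e₀⟩ := hE
  obtain ⟨c, hc⟩ := Countable.exists_injective_nat E
  obtain ⟨N, hN⟩ := window_tail μ hF c (δ := ENNReal.ofReal (ε / 2))
    (ENNReal.ofReal_pos.mpr (half_pos hε))
  set δ : ENNReal := ENNReal.ofReal (ε / (2 * (N + 1))) with hδdef
  have hδ : 0 < δ := ENNReal.ofReal_pos.mpr (by positivity)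
  have happ : ∀ n : ℕ, ∃ C ∈ measurableCylinders (fun _ : ι => Z),
      μ (symmDiff C {x | c (F x) = n}) < δ := by
    intro n
    refine exists_measure_symmDiff_lt_of_generateFrom_isSetRing
      isSetRing_measurableCylinders ?_ generateFrom_measurableCylinders.symm
      (hF.mem {e | c e = n}) hδ
    exact ⟨{Set.univ}, Set.countable_singleton _, by
      rw [Set.singleton_subset_iff]
      exact univ_mem_measurableCylinders _, by simp⟩
  choose C hC hCμ using happ
  have hC' : ∀ n, ∃ s : Finset ι, ∃ S : Set (∀ _ : s, Z), MeasurableSet S ∧ C n = cylinder s S :=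
    fun n => (mem_measurableCylinders (C n)).mp (hC n)
  choose s T hT hCT using hC'
  let b : (ι → Z) → (Fin N → Prop) := fun x n => x ∈ C n
  let φ : (Fin N → Prop) → E := fun v =>
    if h : ∃ e, ∃ hn : c e < N, v ⟨c e, hn⟩ then Classical.choose h else e₀
  have hCmeas : ∀ n, MeasurableSet (C n) := fun n =>
    MeasurableSet.of_mem_measurableCylinders (hC n)
  have hb : CM b := by
    intro v
    have : {x | b x = v} = ⋂ n : Fin N, {x | (x ∈ C n) = v n} := by
      ext x
      simp only [Set.mem_ofPred_eq, Set.mem_iInter]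
      exact funext_iff
    rw [this]
    refine MeasurableSet.iInter fun n => ?_
    by_cases hv : v n
    · have : {x | (x ∈ C n) = v n} = C n := by
        ext x
        simp [hv]
      rw [this]
      exact hCmeas n
    · have : {x | (x ∈ C n) = v n} = (C n)ᶜ := by
        ext x
        simp [hv]
      rw [this]
      exact (hCmeas n).compl
  refine ⟨(Finset.range N).biUnion s, fun x => φ (b x), hb.map φ, ?_, ?_⟩
  · intro x y hxy
    have : b x = b y := by
      funext n
      have h1 : (s n).restrict x = (s n).restrict y := by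
        funext i
        exact hxy i (Finset.mem_biUnion.mpr ⟨n, Finset.mem_range.mpr n.2, i.2⟩)
      have h2 : ∀ z : ι → Z, (z ∈ C n) = ((s n).restrict z ∈ T n) := by
        intro z
        have h3 : (z ∈ C n) = (z ∈ cylinder (s n) (T n)) := by
          conv_lhs => rw [hCT n]
        rw [h3]
        exact propext (mem_cylinder _ _ _)
      change (x ∈ C n) = (y ∈ C n)
      rw [h2 x, h2 y, h1]
    simp only [this]
  · have hsub : {x | F x ≠ φ (b x)} ⊆
        {x | N ≤ c (F x)} ∪ ⋃ n ∈ Finset.range N, symmDiff (C n) {x | c (F x) = n} := by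
      intro x hx
      by_contra hcon
      simp only [Set.mem_union, Set.mem_ofPred_eq, Set.mem_iUnion, Finset.mem_range,
        not_or, not_exists, not_le] at hcon
      obtain ⟨h1, h2⟩ := hcon
      have h3 : ∀ n, n < N → (x ∈ C n ↔ c (F x) = n) := by
        intro n hn
        have h4 := h2 n hn
        rw [Set.mem_symmDiff] at h4
        simp only [Set.mem_ofPred_eq] at h4
        tauto
      apply hx
      have hex : ∃ e, ∃ hn : c e < N, b x ⟨c e, hn⟩ := ⟨F x, h1, (h3 _ h1).mpr rfl⟩
      have hφ : φ (b x) = Classical.choose hex := by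
        simp only [φ]
        rw [dif_pos hex]
      obtain ⟨hn, hbx⟩ := Classical.choose_spec hex
      have h5 : c (F x) = c (Classical.choose hex) := (h3 _ hn).mp hbx
      rw [hφ]
      exact hc h5
    have hle : μ {x | F x ≠ φ (b x)} ≤ ENNReal.ofReal ε := by
      calc μ {x | F x ≠ φ (b x)}
          ≤ μ ({x | N ≤ c (F x)} ∪ ⋃ n ∈ Finset.range N, symmDiff (C n) {x | c (F x) = n}) :=
            measure_mono hsub
        _ ≤ μ {x | N ≤ c (F x)} + μ (⋃ n ∈ Finset.range N, symmDiff (C n) {x | c (F x) = n}) :=
            measure_union_le _ _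
        _ ≤ ENNReal.ofReal (ε / 2) + ∑ n ∈ Finset.range N, μ (symmDiff (C n) {x | c (F x) = n}) := by
            gcongr
            exact measure_biUnion_finset_le _ _
        _ ≤ ENNReal.ofReal (ε / 2) + ∑ n ∈ Finset.range N, δ := by
            gcongr with n _
            exact (hCμ n).le
        _ = ENNReal.ofReal (ε / 2) + ENNReal.ofReal (N * (ε / (2 * (N + 1)))) := by
            rw [Finset.sum_const, Finset.card_range, nsmul_eq_mul, hδdef,
              ENNReal.ofReal_mul (by positivity), ENNReal.ofReal_natCast]
        _ = ENNReal.ofReal (ε / 2 + N * (ε / (2 * (N + 1)))) := by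
            rw [ENNReal.ofReal_add (by positivity) (by positivity)]
        _ ≤ ENNReal.ofReal ε := by
            apply ENNReal.ofReal_le_ofReal
            have hN1 : (0 : ℝ) < 2 * (N + 1) := by positivity
            have : (N : ℝ) * (ε / (2 * (N + 1))) ≤ ε / 2 := by
              rw [← mul_div_assoc, div_le_div_iff₀ hN1 (by norm_num)]
              nlinarith
            linarith
    exact ENNReal.toReal_le_of_le_ofReal hε.le hle

end Pool.Agent.TLD
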